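import Pool.Agent.Lib.MP_cdd7b4_an.MX.Iface

set_option autoImplicit false

/-! # CONC: concentration of the norm -/

namespace Pool.Agent.Lib.MP_cdd7b4_an.MX.H75

open Pool.Agent.Lib.MP_cdd7b4_an.H80 (av sg norm_sg av_mono av_const)
open scoped BigOperators

/-- Concentration for sums of independent vectors. -/
theorem conc_aux (hE : EfronStatement) {X : Type*} [NormedAddCommGroup X] (P Q : Type)
    [Fintype P] [DecidableEq P] [Fintype Q] [Nonempty Q] (t : P → Q → X) (c : P → ℝ)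
    (hc : ∀ p q, ‖t p q‖ ≤ c p) :
    av (fun κ : P → Q => (‖∑ p, t p (κ p)‖ - av (fun κ : P → Q => ‖∑ p, t p (κ p)‖)) ^ 2) ≤
      ∑ p, c p ^ 2 := by
  refine (hE P Q (fun κ => ‖∑ p, t p (κ p)‖)
    (fun p κ => ‖∑ p' ∈ Finset.univ.erase p, t p' (κ p')‖) ?_).trans ?_
  · intro p κ q
    have h : ∑ p' ∈ Finset.univ.erase p, t p' (Function.update κ p q p') =
        ∑ p' ∈ Finset.univ.erase p, t p' (κ p') := by
      refine Finset.sum_congr rfl fun p' hp' => ?_
      rw [Function.update_of_ne (Finset.ne_of_mem_erase hp')]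
    simp only [h]
  · refine Finset.sum_le_sum fun p _ => ?_
    have h1 : ∀ κ : P → Q, (‖∑ p, t p (κ p)‖ -
        ‖∑ p' ∈ Finset.univ.erase p, t p' (κ p')‖) ^ 2 ≤ c p ^ 2 := by
      intro κ
      have h2 : |‖∑ p, t p (κ p)‖ - ‖∑ p' ∈ Finset.univ.erase p, t p' (κ p')‖| ≤ c p := by
        refine (abs_norm_sub_norm_le _ _).trans ?_
        rw [← Finset.add_sum_erase Finset.univ (fun p => t p (κ p)) (Finset.mem_univ p),
          add_sub_cancel_right]
        exact hc p (κ p)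
      exact sq_le_sq' (by linarith [(abs_le.1 h2).1]) (abs_le.1 h2).2
    have h3 := av_mono h1
    rwa [av_const] at h3

theorem conc (𝕜 : Type*) [RCLike 𝕜] (X : Type*) [NormedAddCommGroup X] [NormedSpace 𝕜 X]
    (hE : EfronStatement) (hM : MargStatement) : ConcStatement 𝕜 X := by
  intro I S _ _ K D x a τ hK hx π v
  have : Nonempty (Fin K × Bool) := ⟨(⟨0, hK⟩, true)⟩
  set c : ℝ := NU (fun i (κ : Fin D → Fin K × Bool) => blk 𝕜 (x i) a κ) π v 0 with hcd
  set t : S × Fin D → Fin K × Bool → X := fun p q =>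
    v p.1 • (((a p.2 : ℝ) : 𝕜) • (sg 𝕜 q.2 • x (π p.1) q.1)) with ht
  have hz : ∀ κ : S → Fin D → Fin K × Bool, ∑ s, v s • blk 𝕜 (x (π s)) a (κ s) =
      ∑ p : S × Fin D, t p (κ p.1 p.2) := by
    intro κ
    rw [Fintype.sum_prod_type]
    refine Finset.sum_congr rfl fun s _ => ?_
    rw [blk, Finset.smul_sum]
  have hcur : ∀ F : (S → Fin D → Fin K × Bool) → ℝ,
      av (fun κ : S × Fin D → Fin K × Bool => F (fun i j => κ (i, j))) = av F :=
    hM.2.2.2 S (Fin D) (Fin K × Bool)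
  have hc1 : c = av (fun κ : S × Fin D → Fin K × Bool => ‖∑ p, t p (κ p)‖) := by
    rw [hcd, NU, ← hcur]
    congr 1
    funext κ
    rw [add_zero, hz]
  have h1 := conc_aux hE (S × Fin D) (Fin K × Bool) t (fun p => ‖v p.1‖ * |a p.2| * τ) (by
    intro p q
    simp only [ht]
    rw [norm_smul, norm_smul, norm_smul, norm_sg, one_mul, RCLike.norm_ofReal, ← mul_assoc]
    exact mul_le_mul_of_nonneg_left (hx _ _) (by positivity))
  rw [← hcur]
  have h2 : (fun κ : S × Fin D → Fin K × Bool =>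
      (‖∑ s, v s • blk 𝕜 (x (π s)) a ((fun i j => κ (i, j)) s)‖ - c) ^ 2) =
      fun κ : S × Fin D → Fin K × Bool => (‖∑ p, t p (κ p)‖ -
        av (fun κ : S × Fin D → Fin K × Bool => ‖∑ p, t p (κ p)‖)) ^ 2 := by
    funext κ
    rw [hz, ← hc1]
  rw [h2]
  refine h1.trans ?_
  have h3 : ∑ p : S × Fin D, (‖v p.1‖ * |a p.2| * τ) ^ 2 =
      τ ^ 2 * (∑ i, a i ^ 2) * ∑ s, ‖v s‖ ^ 2 := by
    rw [Fintype.sum_prod_type, Finset.mul_sum]
    refine Finset.sum_congr rfl fun s _ => ?_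
    rw [Finset.mul_sum, Finset.sum_mul]
    refine Finset.sum_congr rfl fun i _ => ?_
    rw [mul_pow, mul_pow, sq_abs]
    ring
  rw [h3]
  have h4 : 0 ≤ (∑ i, a i ^ 2) * ∑ s, ‖v s‖ ^ 2 :=
    mul_nonneg (Finset.sum_nonneg fun _ _ => sq_nonneg _) (Finset.sum_nonneg fun _ _ => sq_nonneg _)
  nlinarith [sq_nonneg τ, mul_nonneg (sq_nonneg τ) h4]

end Pool.Agent.Lib.MP_cdd7b4_an.MX.H75
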