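import Pool.Agent.Lib.MP_cdd7b4_an.MX.Iface

set_option autoImplicit false

/-! # EIG: the coupling of two independent block vectors -/

namespace Pool.Agent.Lib.MP_cdd7b4_an.MX.H75

open Pool.Agent.Lib.MP_cdd7b4_an.H80 (av sg norm_sg sg_not av_mono av_const av_sub av_const_mul)
open scoped BigOperators

section

variable (𝕜 : Type*) [RCLike 𝕜] {X : Type*} [NormedAddCommGroup X] [NormedSpace 𝕜 X]

/-- One slot. -/
def sl {K : ℕ} (x : Fin K → X) (q : Fin K × Bool) : X := sg 𝕜 q.2 • x q.1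

theorem blk_eq {K D : ℕ} (x : Fin K → X) (a : Fin D → ℝ) (κ : Fin D → Fin K × Bool) :
    blk 𝕜 x a κ = ∑ i, ((a i : ℝ) : 𝕜) • sl 𝕜 x (κ i) := rfl

/-- The slot `i'` of the doubled profile. -/
def dbl (D : ℕ) : Fin D ↪ Fin D ⊕ Fin D where
  toFun i := if (i : ℕ) % 2 = 0 then Sum.inl ⟨i / 2, by have := i.2; omega⟩
    else Sum.inr ⟨i / 2, by have := i.2; omega⟩
  inj' i j h := by
    apply Fin.ext
    dsimp only at h
    split_ifs at h with h1 h2 h2
    · have h3 := congrArg Fin.val (Sum.inl.inj h)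
      simp only at h3
      omega
    · have h3 := congrArg Fin.val (Sum.inr.inj h)
      simp only at h3
      omega

theorem sum_dbl {K D : ℕ} (x : Fin K → X) (a : ℕ → ℝ)
    (ha : ∀ i, D ≤ i → a (i / 2) = 0) (κ : Fin D ⊕ Fin D → Fin K × Bool) :
    blk 𝕜 x (fun i : Fin D => a (i / 2)) (κ ∘ dbl D) =
      blk 𝕜 x (fun i : Fin D => a i) (κ ∘ Sum.inl) +
        blk 𝕜 x (fun i : Fin D => a i) (κ ∘ Sum.inr) := by
  rw [blk_eq, blk_eq, blk_eq]
  have h : ∑ i : Fin D, ((a (i / 2) : ℝ) : 𝕜) • sl 𝕜 x ((κ ∘ dbl D) i) =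
      ∑ z : Fin D ⊕ Fin D, ((a (Sum.elim Fin.val Fin.val z) : ℝ) : 𝕜) • sl 𝕜 x (κ z) := by
    refine Fintype.sum_of_injective (dbl D) (dbl D).injective _ _ ?_ ?_
    · intro z hz
      have h0 : a (Sum.elim Fin.val Fin.val z) = 0 := by
        rcases z with i | i
        · by_cases hi : 2 * (i : ℕ) < D
          · exfalso
            apply hz
            refine ⟨⟨2 * i, hi⟩, ?_⟩
            show (if (2 * (i : ℕ)) % 2 = 0 then (Sum.inl ⟨2 * (i : ℕ) / 2, _⟩ : Fin D ⊕ Fin D)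
              else Sum.inr ⟨2 * (i : ℕ) / 2, _⟩) = Sum.inl i
            rw [if_pos (by omega)]
            congr 1
            apply Fin.ext
            show 2 * (i : ℕ) / 2 = i
            omega
          · have := ha (2 * i) (by omega)
            rw [show 2 * (i : ℕ) / 2 = i by omega] at this
            exact this
        · by_cases hi : 2 * (i : ℕ) + 1 < D
          · exfalso
            apply hz
            refine ⟨⟨2 * i + 1, hi⟩, ?_⟩
            show (if (2 * (i : ℕ) + 1) % 2 = 0 then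
              (Sum.inl ⟨(2 * (i : ℕ) + 1) / 2, _⟩ : Fin D ⊕ Fin D)
              else Sum.inr ⟨(2 * (i : ℕ) + 1) / 2, _⟩) = Sum.inr i
            rw [if_neg (by omega)]
            congr 1
            apply Fin.ext
            show (2 * (i : ℕ) + 1) / 2 = i
            omega
          · have := ha (2 * i + 1) (by omega)
            rw [show (2 * (i : ℕ) + 1) / 2 = i by omega] at this
            exact this
      rw [h0]
      simp
    · intro i
      have h1 : Sum.elim Fin.val Fin.val (dbl D i) = (i : ℕ) / 2 := by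
        show Sum.elim Fin.val Fin.val (if (i : ℕ) % 2 = 0 then
          (Sum.inl ⟨(i : ℕ) / 2, _⟩ : Fin D ⊕ Fin D) else Sum.inr ⟨(i : ℕ) / 2, _⟩) = _
        split_ifs <;> rfl
      rw [h1]
      rfl
  rw [h, Fintype.sum_sum_type]
  rfl

end

theorem eig (𝕜 : Type*) [RCLike 𝕜] (X : Type*) [NormedAddCommGroup X] [NormedSpace 𝕜 X]
    (hM : MargStatement) (hU : UncStatement 𝕜 X) : EigStatement 𝕜 X := by
  intro K D x a b lam θ hK hθ hlam ha hb haD hbD hab w hw y
  have : Nonempty (Fin K × Bool) := ⟨(⟨0, hK⟩, true)⟩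
  have ha2 : ∀ i, D ≤ i → a (i / 2) = 0 := by
    intro i hi
    have h := hab i
    rw [haD i hi, hbD i hi, mul_zero, mul_zero, sub_zero] at h
    exact abs_nonpos_iff.1 h
  -- the doubled block vector
  have h1 : av (fun κ : (Fin D → Fin K × Bool) × (Fin D → Fin K × Bool) => ‖((w : ℝ) : 𝕜) •
        (blk 𝕜 x (fun i : Fin D => a i) κ.1 + blk 𝕜 x (fun i : Fin D => a i) κ.2) + y‖) =
      av (fun κ : Fin D → Fin K × Bool =>
        ‖((w : ℝ) : 𝕜) • blk 𝕜 x (fun i : Fin D => a (i / 2)) κ + y‖) := by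
    rw [← hM.1 (Fin D) (Fin D ⊕ Fin D) (Fin K × Bool) (dbl D)]
    rw [(hM.2.1 (Fin D → Fin K × Bool) (Fin D → Fin K × Bool) (fun κ κ' => ‖((w : ℝ) : 𝕜) •
        (blk 𝕜 x (fun i : Fin D => a i) κ + blk 𝕜 x (fun i : Fin D => a i) κ') + y‖)).1,
      ← hM.2.2.1 (Fin D) (Fin D) (Fin K × Bool)]
    congr 1
    funext κ
    rw [sum_dbl 𝕜 x a ha2 κ]
  rw [h1]
  -- comparison
  have h2 : |av (fun κ : Fin D → Fin K × Bool =>
        ‖((w : ℝ) : 𝕜) • blk 𝕜 x (fun i : Fin D => a (i / 2)) κ + y‖) -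
      av (fun κ => ‖((lam * w : ℝ) : 𝕜) • blk 𝕜 x (fun i : Fin D => a i) κ + y‖)| ≤
      w * av (fun κ : Fin D → Fin K × Bool =>
        ‖blk 𝕜 x (fun i : Fin D => a (i / 2) - lam * a i) κ‖) := by
    have h3 : ∀ κ : Fin D → Fin K × Bool,
        |‖((w : ℝ) : 𝕜) • blk 𝕜 x (fun i : Fin D => a (i / 2)) κ + y‖ -
          ‖((lam * w : ℝ) : 𝕜) • blk 𝕜 x (fun i : Fin D => a i) κ + y‖| ≤
        w * ‖blk 𝕜 x (fun i : Fin D => a (i / 2) - lam * a i) κ‖ := by
      intro κ
      refine (abs_norm_sub_norm_le _ _).trans ?_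
      rw [add_sub_add_right_eq_sub]
      have h4 : ((w : ℝ) : 𝕜) • blk 𝕜 x (fun i : Fin D => a (i / 2)) κ -
          ((lam * w : ℝ) : 𝕜) • blk 𝕜 x (fun i : Fin D => a i) κ =
          ((w : ℝ) : 𝕜) • blk 𝕜 x (fun i : Fin D => a (i / 2) - lam * a i) κ := by
        rw [blk_eq, blk_eq, blk_eq, Finset.smul_sum, Finset.smul_sum, Finset.smul_sum,
          ← Finset.sum_sub_distrib]
        refine Finset.sum_congr rfl fun i _ => ?_
        rw [smul_smul, smul_smul, smul_smul, ← sub_smul]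
        congr 1
        push_cast
        ring
      rw [h4, norm_smul, RCLike.norm_ofReal, abs_of_nonneg hw]
    rw [← av_sub, ← av_const_mul, abs_le]
    constructor
    · have h5 := av_mono (fun κ => (abs_le.1 (h3 κ)).1)
      have h6 : av (fun κ : Fin D → Fin K × Bool =>
          -(w * ‖blk 𝕜 x (fun i : Fin D => a (i / 2) - lam * a i) κ‖)) =
          - av (fun κ : Fin D → Fin K × Bool =>
          w * ‖blk 𝕜 x (fun i : Fin D => a (i / 2) - lam * a i) κ‖) := by
        have := av_const_mul (-1) (fun κ : Fin D → Fin K × Bool =>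
          w * ‖blk 𝕜 x (fun i : Fin D => a (i / 2) - lam * a i) κ‖)
        simpa using this
      rw [h6] at h5
      exact h5
    · exact av_mono (fun κ => (abs_le.1 (h3 κ)).2)
  refine h2.trans ?_
  -- unconditionality
  have h3 := (hU Unit (Fin K × Bool) (Fin D) (fun _ q => sl 𝕜 x q)
    ⟨fun q => (q.1, !q.2), fun q => by simp, fun _ q => by simp [sl, sg_not]⟩
    (fun _ => ()) (fun i => ((a ((i : ℕ) / 2) - lam * a i : ℝ) : 𝕜))
    (fun i => ((θ * b i : ℝ) : 𝕜))).1 (by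
      intro i
      have hi := hab i
      by_cases h0 : θ * b i = 0
      · refine ⟨0, by simp, ?_⟩
        rw [h0] at hi
        rw [abs_nonpos_iff.1 hi]
        simp
      · refine ⟨(a ((i : ℕ) / 2) - lam * a i) / (θ * b i), ?_, ?_⟩
        · have hpos : 0 < θ * b i := lt_of_le_of_ne (mul_nonneg hθ (hb i)) (Ne.symm h0)
          rw [abs_div, abs_of_pos hpos, div_le_one hpos]
          exact hi
        · rw [← RCLike.ofReal_mul, div_mul_cancel₀ _ h0])
  have h4 : NU (fun (_ : Unit) q => sl 𝕜 x q) (fun _ : Fin D => ())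
      (fun i => ((a ((i : ℕ) / 2) - lam * a i : ℝ) : 𝕜)) 0 =
      av (fun κ : Fin D → Fin K × Bool =>
        ‖blk 𝕜 x (fun i : Fin D => a (i / 2) - lam * a i) κ‖) := by
    rw [NU]
    congr 1
    funext κ
    rw [add_zero]
    rfl
  have h5 : NU (fun (_ : Unit) q => sl 𝕜 x q) (fun _ : Fin D => ())
      (fun i => ((θ * b i : ℝ) : 𝕜)) 0 =
      θ * av (fun κ : Fin D → Fin K × Bool => ‖blk 𝕜 x (fun i : Fin D => b i) κ‖) := by
    rw [NU, ← av_const_mul]
    congr 1
    funext κ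
    rw [add_zero, blk_eq]
    have h6 : ∑ i : Fin D, ((θ * b i : ℝ) : 𝕜) • sl 𝕜 x (κ i) =
        ((θ : ℝ) : 𝕜) • ∑ i : Fin D, ((b i : ℝ) : 𝕜) • sl 𝕜 x (κ i) := by
      rw [Finset.smul_sum]
      refine Finset.sum_congr rfl fun i _ => ?_
      rw [smul_smul]
      congr 1
      push_cast
      rfl
    rw [h6, norm_smul, RCLike.norm_ofReal, abs_of_nonneg hθ]
  rw [h4, h5] at h3
  calc w * av (fun κ : Fin D → Fin K × Bool =>
        ‖blk 𝕜 x (fun i : Fin D => a (i / 2) - lam * a i) κ‖)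
      ≤ w * (θ * av (fun κ : Fin D → Fin K × Bool => ‖blk 𝕜 x (fun i : Fin D => b i) κ‖)) :=
        mul_le_mul_of_nonneg_left h3 hw
    _ = θ * w * av (fun κ : Fin D → Fin K × Bool => ‖blk 𝕜 x (fun i : Fin D => b i) κ‖) := by
        ring

end Pool.Agent.Lib.MP_cdd7b4_an.MX.H75
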